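import Pool.Agent.helper93.VN.SpecL
import Pool.Agent.helper14.VQE.NMB

/-!
# Project VN (MP_07c750_an), block LD, row LST: the start
-/

set_option autoImplicit false

open scoped MatrixGroups ContDiff Topology UpperHalfPlane ComplexConjugate ENNReal
open UpperHalfPlane MeasureTheory Filter Set

namespace Pool.Agent.VN

open Pool.Agent.RS Pool.Agent.VQ
open Pool.Agent.RPQ (mean)
open Pool.Agent.VQE (nm)

noncomputable section

/-- locally Lipschitz functions are continuous -/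
theorem LST_cont {f : SL(2, ℝ) → ℝ} {C : ℝ} (h : ∀ g y : SL(2, ℝ), nm y ≤ 1 / 10 → |f (g * y) - f g| ≤ C * nm y) : Continuous f := by
  rw [continuous_iff_continuousAt]
  intro g
  have h1 : Tendsto (fun g' : SL(2, ℝ) => nm (g⁻¹ * g')) (𝓝 g) (𝓝 0) := by
    have h2 : Continuous (fun g' : SL(2, ℝ) => nm (g⁻¹ * g')) := VQE.NMB_cont.comp (continuous_const.mul continuous_id)
    have h3 := h2.tendsto g
    have h4 : nm (g⁻¹ * g) = 0 := by rw [inv_mul_cancel]; exact (VQE.NMB_zero 1).2 rfl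
    rw [h4] at h3
    exact h3
  have h2 : ∀ᶠ g' : SL(2, ℝ) in 𝓝 g, nm (g⁻¹ * g') ≤ 1 / 10 :=
    (h1.eventually (gt_mem_nhds (show (0 : ℝ) < 1 / 10 by norm_num))).mono fun _ h => le_of_lt h
  rw [ContinuousAt, tendsto_iff_dist_tendsto_zero]
  have h3 : Tendsto (fun g' : SL(2, ℝ) => C * nm (g⁻¹ * g')) (𝓝 g) (𝓝 0) := by
    have := h1.const_mul C
    rwa [mul_zero] at this
  refine squeeze_zero' (Eventually.of_forall fun _ => dist_nonneg) ?_ h3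
  filter_upwards [h2] with g' hg'
  have h4 := h g (g⁻¹ * g') hg'
  rw [mul_inv_cancel_left] at h4
  rw [Real.dist_eq]
  exact h4

/-- the distance of two points of a curve -/
theorem LST_nm {Γ : ℝ → SL(2, ℝ)} {x b c : ℝ → ℝ} (hΓ : Cv Γ x b c) {Ω : ℝ} (hΩ : 0 < Ω)
    (hb : ∀ v, |x v / 2| ≤ Ω ∧ |b v| ≤ Ω ∧ |c v| ≤ Ω) (v v' : ℝ) (hv : v ≤ v') (hs : 2 * Ω * (v' - v) ≤ 1) :
    nm ((Γ v)⁻¹ * Γ v') ≤ 2 * Ω * (v' - v) := by
  have hW : ∀ (s : ℝ) (i j : Fin 2), |(!![x s / 2, b s; c s, -(x s / 2)] : Matrix (Fin 2) (Fin 2) ℝ) i j| ≤ Ω := by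
    intro s i j
    obtain ⟨h1, h2, h3⟩ := hb s
    fin_cases i <;> fin_cases j
    · exact h1
    · exact h2
    · exact h3
    · show |-(x s / 2)| ≤ Ω
      rw [abs_neg]
      exact h1
  have hD : ∀ s : ℝ, HasDerivAt (fun s : ℝ => (fun i j => (((Γ v)⁻¹ * Γ s).1 i j - (1 : Matrix (Fin 2) (Fin 2) ℝ) i j) : Fin 2 → Fin 2 → ℝ))
      (fun i j => (((Γ v)⁻¹ * Γ s).1 * !![x s / 2, b s; c s, -(x s / 2)]) i j) s := by
    intro s
    rw [hasDerivAt_pi]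
    intro i
    rw [hasDerivAt_pi]
    intro j
    have h1 : ∀ r : ℝ, ((Γ v)⁻¹ * Γ r).1 i j = ((Γ v)⁻¹).1 i 0 * (Γ r).1 0 j + ((Γ v)⁻¹).1 i 1 * (Γ r).1 1 j := fun r => VQE.NMB_mul _ _ i j
    have h2 : (((Γ v)⁻¹ * Γ s).1 * !![x s / 2, b s; c s, -(x s / 2)]) i j =
        ((Γ v)⁻¹).1 i 0 * ((Γ s).1 * !![x s / 2, b s; c s, -(x s / 2)]) 0 j + ((Γ v)⁻¹).1 i 1 * ((Γ s).1 * !![x s / 2, b s; c s, -(x s / 2)]) 1 j := by
      have h3 : ((Γ v)⁻¹ * Γ s).1 = ((Γ v)⁻¹).1 * (Γ s).1 := rfl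
      rw [h3, Matrix.mul_assoc, Matrix.mul_apply, Fin.sum_univ_two]
    rw [h2]
    have h3 := (((hΓ.der s 0 j).const_mul (((Γ v)⁻¹).1 i 0)).add ((hΓ.der s 1 j).const_mul (((Γ v)⁻¹).1 i 1))).sub_const ((1 : Matrix (Fin 2) (Fin 2) ℝ) i j)
    refine h3.congr_of_eventuallyEq (Eventually.of_forall fun r => ?_)
    show ((Γ v)⁻¹ * Γ r).1 i j - _ = _
    rw [h1 r]
    rfl
  have hbound : ∀ s ∈ Ico v v', ‖(fun i j => (((Γ v)⁻¹ * Γ s).1 * !![x s / 2, b s; c s, -(x s / 2)]) i j : Fin 2 → Fin 2 → ℝ)‖ ≤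
      2 * Ω * ‖(fun i j => (((Γ v)⁻¹ * Γ s).1 i j - (1 : Matrix (Fin 2) (Fin 2) ℝ) i j) : Fin 2 → Fin 2 → ℝ)‖ + Ω := by
    intro s _
    obtain ⟨N, hN⟩ : ∃ N : ℝ, N = ‖(fun i j => (((Γ v)⁻¹ * Γ s).1 i j - (1 : Matrix (Fin 2) (Fin 2) ℝ) i j) : Fin 2 → Fin 2 → ℝ)‖ := ⟨_, rfl⟩
    have hN0 : 0 ≤ N := by rw [hN]; exact norm_nonneg _
    rw [← hN]
    have hent : ∀ i j : Fin 2, |((Γ v)⁻¹ * Γ s).1 i j - (1 : Matrix (Fin 2) (Fin 2) ℝ) i j| ≤ N := by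
      intro i j
      rw [hN, ← Real.norm_eq_abs]
      exact (norm_le_pi_norm (fun j => ((Γ v)⁻¹ * Γ s).1 i j - (1 : Matrix (Fin 2) (Fin 2) ℝ) i j) j).trans
        (norm_le_pi_norm (fun i j => (((Γ v)⁻¹ * Γ s).1 i j - (1 : Matrix (Fin 2) (Fin 2) ℝ) i j) : Fin 2 → Fin 2 → ℝ) i)
    refine (pi_norm_le_iff_of_nonneg (by positivity)).2 fun i => (pi_norm_le_iff_of_nonneg (by positivity)).2 fun j => ?_
    rw [Real.norm_eq_abs, Matrix.mul_apply, Fin.sum_univ_two]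
    obtain ⟨w, hwd⟩ : ∃ w : Matrix (Fin 2) (Fin 2) ℝ, w = !![x s / 2, b s; c s, -(x s / 2)] := ⟨_, rfl⟩
    have hw' : ∀ i j : Fin 2, |w i j| ≤ Ω := by
      intro i j
      rw [hwd]
      exact hW s i j
    rw [← hwd]
    have e1 : ((Γ v)⁻¹ * Γ s).1 i 0 * w 0 j + ((Γ v)⁻¹ * Γ s).1 i 1 * w 1 j = w i j +
        (((Γ v)⁻¹ * Γ s).1 i 0 - (1 : Matrix (Fin 2) (Fin 2) ℝ) i 0) * w 0 j + (((Γ v)⁻¹ * Γ s).1 i 1 - (1 : Matrix (Fin 2) (Fin 2) ℝ) i 1) * w 1 j := by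
      linear_combination VQE.NMB_l (fun k => w k j) i
    rw [e1]
    have b1 : |(((Γ v)⁻¹ * Γ s).1 i 0 - (1 : Matrix (Fin 2) (Fin 2) ℝ) i 0) * w 0 j| ≤ N * Ω := by
      rw [abs_mul]
      exact mul_le_mul (hent i 0) (hw' 0 j) (abs_nonneg _) hN0
    have b2 : |(((Γ v)⁻¹ * Γ s).1 i 1 - (1 : Matrix (Fin 2) (Fin 2) ℝ) i 1) * w 1 j| ≤ N * Ω := by
      rw [abs_mul]
      exact mul_le_mul (hent i 1) (hw' 1 j) (abs_nonneg _) hN0
    have b3 := hw' i j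
    have b4 := abs_add_le (w i j + (((Γ v)⁻¹ * Γ s).1 i 0 - (1 : Matrix (Fin 2) (Fin 2) ℝ) i 0) * w 0 j) ((((Γ v)⁻¹ * Γ s).1 i 1 - (1 : Matrix (Fin 2) (Fin 2) ℝ) i 1) * w 1 j)
    have b5 := abs_add_le (w i j) ((((Γ v)⁻¹ * Γ s).1 i 0 - (1 : Matrix (Fin 2) (Fin 2) ℝ) i 0) * w 0 j)
    linarith
  have h0 : ‖(fun i j => (((Γ v)⁻¹ * Γ v).1 i j - (1 : Matrix (Fin 2) (Fin 2) ℝ) i j) : Fin 2 → Fin 2 → ℝ)‖ ≤ 0 := by
    refine (pi_norm_le_iff_of_nonneg le_rfl).2 fun i => (pi_norm_le_iff_of_nonneg le_rfl).2 fun j => ?_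
    rw [inv_mul_cancel]
    have : (1 : SL(2, ℝ)).1 = 1 := rfl
    rw [this, sub_self, norm_zero]
  have hg := norm_le_gronwallBound_of_norm_deriv_right_le (a := v) (b := v') (K := 2 * Ω) (ε := Ω) (δ := 0)
    (fun s _ => (hD s).continuousAt.continuousWithinAt) (fun s _ => (hD s).hasDerivWithinAt) h0 hbound v' ⟨hv, le_rfl⟩
  rw [gronwallBound_of_K_ne_0 (by positivity)] at hg
  simp only [zero_mul, zero_add] at hg
  have h1 : Ω / (2 * Ω) = 1 / 2 := by field_simp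
  rw [h1] at hg
  have hy0 : 0 ≤ 2 * Ω * (v' - v) := mul_nonneg (by positivity) (by linarith)
  have h2 : Real.exp (2 * Ω * (v' - v)) ≤ 1 + 2 * (2 * Ω * (v' - v)) := by
    have := Real.abs_exp_sub_one_le (x := 2 * Ω * (v' - v)) (by rw [abs_of_nonneg hy0]; exact hs)
    rw [abs_of_nonneg hy0] at this
    linarith [le_abs_self (Real.exp (2 * Ω * (v' - v)) - 1)]
  refine VQE.NMB_of_le _ _ fun i j => ?_
  rw [← Real.norm_eq_abs]
  refine le_trans ((norm_le_pi_norm (fun j => ((Γ v)⁻¹ * Γ v').1 i j - (1 : Matrix (Fin 2) (Fin 2) ℝ) i j) j).trans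
        (norm_le_pi_norm (fun i j => (((Γ v)⁻¹ * Γ v').1 i j - (1 : Matrix (Fin 2) (Fin 2) ℝ) i j) : Fin 2 → Fin 2 → ℝ) i)) (hg.trans ?_)
  linarith

/-- comparison of two linear equations -/
theorem LST_ode (C Λ M : ℝ) (a q p J W S a' q' p' J' W' S' : ℝ → ℝ) (hC : 1 ≤ C) (hΛ : 0 ≤ Λ)
    (hc : ∀ t : ℝ, 0 ≤ t → t ≤ 1 → |a t| ≤ C ∧ |q t| ≤ C ∧ |p t| ≤ C ∧ |a t - a' t| ≤ Λ ∧ |q t - q' t| ≤ Λ ∧ |p t - p' t| ≤ Λ ∧ |J' t| ≤ M ∧ |W' t| ≤ M)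
    (hd : ∀ t : ℝ, HasDerivAt J (a t * W t) t ∧ HasDerivAt W (q t * J t) t ∧ HasDerivAt S (p t * J t) t)
    (hd' : ∀ t : ℝ, HasDerivAt J' (a' t * W' t) t ∧ HasDerivAt W' (q' t * J' t) t ∧ HasDerivAt S' (p' t * J' t) t)
    (h0 : J 0 = J' 0 ∧ W 0 = W' 0 ∧ S 0 = S' 0) :
    |J 1 - J' 1| ≤ M * Λ * Real.exp C ∧ |W 1 - W' 1| ≤ M * Λ * Real.exp C ∧ |S 1 - S' 1| ≤ M * Λ * Real.exp C := by
  have hD : ∀ t : ℝ, HasDerivAt (fun t => ((J t - J' t, W t - W' t, S t - S' t) : ℝ × ℝ × ℝ))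
      (a t * W t - a' t * W' t, q t * J t - q' t * J' t, p t * J t - p' t * J' t) t := by
    intro t
    exact ((hd t).1.sub (hd' t).1).prodMk (((hd t).2.1.sub (hd' t).2.1).prodMk ((hd t).2.2.sub (hd' t).2.2))
  have hM : 0 ≤ M := (abs_nonneg _).trans (hc 0 le_rfl zero_le_one).2.2.2.2.2.2.1
  have hb : ∀ t ∈ Ico (0 : ℝ) 1, ‖((a t * W t - a' t * W' t, q t * J t - q' t * J' t, p t * J t - p' t * J' t) : ℝ × ℝ × ℝ)‖ ≤
      C * ‖((J t - J' t, W t - W' t, S t - S' t) : ℝ × ℝ × ℝ)‖ + Λ * M := by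
    intro t ht
    obtain ⟨c1, c2, c3, c4, c5, c6, c7, c8⟩ := hc t ht.1 ht.2.le
    obtain ⟨N, hN⟩ : ∃ N : ℝ, N = ‖((J t - J' t, W t - W' t, S t - S' t) : ℝ × ℝ × ℝ)‖ := ⟨_, rfl⟩
    have n1 : |J t - J' t| ≤ N := by
      rw [hN, ← Real.norm_eq_abs]
      exact norm_fst_le ((J t - J' t, W t - W' t, S t - S' t) : ℝ × ℝ × ℝ)
    have n2 : |W t - W' t| ≤ N := by
      rw [hN, ← Real.norm_eq_abs]
      exact (norm_fst_le ((W t - W' t, S t - S' t) : ℝ × ℝ)).trans (norm_snd_le ((J t - J' t, W t - W' t, S t - S' t) : ℝ × ℝ × ℝ))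
    rw [← hN]
    have key : ∀ α β X Y : ℝ, |α| ≤ C → |α - β| ≤ Λ → |X - Y| ≤ N → |Y| ≤ M → |α * X - β * Y| ≤ C * N + Λ * M := by
      intro α β X Y h1 h2 h3 h4
      have e : α * X - β * Y = α * (X - Y) + (α - β) * Y := by ring
      rw [e]
      refine (abs_add_le _ _).trans ?_
      rw [abs_mul, abs_mul]
      exact add_le_add (mul_le_mul h1 h3 (abs_nonneg _) (by linarith)) (mul_le_mul h2 h4 (abs_nonneg _) hΛ)
    rw [Prod.norm_def, Prod.norm_def]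
    exact max_le (key _ _ _ _ c1 c4 n2 c8) (max_le (key _ _ _ _ c2 c5 n1 c7) (key _ _ _ _ c3 c6 n1 c7))
  have hz : ‖((J 0 - J' 0, W 0 - W' 0, S 0 - S' 0) : ℝ × ℝ × ℝ)‖ ≤ 0 := by
    rw [h0.1, h0.2.1, h0.2.2, sub_self, sub_self, sub_self]
    simp
  have hg := norm_le_gronwallBound_of_norm_deriv_right_le (a := 0) (b := 1) (K := C) (ε := Λ * M) (δ := 0)
    (fun s _ => (hD s).continuousAt.continuousWithinAt) (fun s _ => (hD s).hasDerivWithinAt) hz hb 1 ⟨zero_le_one, le_rfl⟩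
  rw [gronwallBound_of_K_ne_0 (by linarith)] at hg
  simp only [zero_mul, zero_add, sub_zero, mul_one] at hg
  have h1 : Λ * M / C * (Real.exp C - 1) ≤ M * Λ * Real.exp C := by
    have h2 : Λ * M / C ≤ Λ * M := div_le_self (mul_nonneg hΛ hM) hC
    have h3 : Real.exp C - 1 ≤ Real.exp C := by linarith
    have h4 : 0 ≤ Real.exp C - 1 := by linarith [Real.one_le_exp (by linarith : 0 ≤ C)]
    calc Λ * M / C * (Real.exp C - 1) ≤ Λ * M * Real.exp C := mul_le_mul h2 h3 h4 (mul_nonneg hΛ hM)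
      _ = M * Λ * Real.exp C := by ring
  have hg' := hg.trans h1
  refine ⟨?_, ?_, ?_⟩
  · rw [← Real.norm_eq_abs]
    exact (norm_fst_le ((J 1 - J' 1, W 1 - W' 1, S 1 - S' 1) : ℝ × ℝ × ℝ)).trans hg'
  · rw [← Real.norm_eq_abs]
    exact ((norm_fst_le ((W 1 - W' 1, S 1 - S' 1) : ℝ × ℝ)).trans (norm_snd_le ((J 1 - J' 1, W 1 - W' 1, S 1 - S' 1) : ℝ × ℝ × ℝ))).trans hg'
  · rw [← Real.norm_eq_abs]
    exact ((norm_snd_le ((W 1 - W' 1, S 1 - S' 1) : ℝ × ℝ)).trans (norm_snd_le ((J 1 - J' 1, W 1 - W' 1, S 1 - S' 1) : ℝ × ℝ × ℝ))).trans hg'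

/-- the entries of the variation -/
theorem LST_om {k C : ℝ} {D : Dyn} (hF : FK k C D) {E : ℝ} (hE : |E| ≤ k) (g : SL(2, ℝ)) (x b c M : ℝ)
    (hJ : |Jc D.U E g b c| ≤ M) (hW : |Wc D.U E g x b c| ≤ M) (hS : |Sc D.U E g x| ≤ C * M) :
    |x / 2| ≤ 2 * C ^ 4 * M ∧ |b| ≤ 2 * C ^ 4 * M ∧ |c| ≤ 2 * C ^ 4 * M := by
  obtain ⟨r1, r2, -, -, -, -⟩ := hF.ro E g hE
  obtain ⟨k1, k2, -⟩ := hF.ka E g hE
  have hC := hF.c1
  have hC0 : 0 < C := by linarith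
  unfold Jc at hJ
  unfold Wc at hW
  unfold Sc at hS
  generalize rho D.U E g = r at *
  generalize kap D.U E g = κ at *
  generalize n1 D.U g = n at *
  have hM : 0 ≤ M := (abs_nonneg _).trans hJ
  have hr : 0 < r := lt_of_lt_of_le (by positivity) r1
  have hri : 1 / r ≤ C := by
    rw [div_le_iff₀ hr]
    rw [div_le_iff₀ hC0] at r1
    linarith
  have hri0 : 0 < 1 / r := by positivity
  have hbc : |b + c| ≤ C * M := by
    have e : b + c = 1 / r * (-(-(r * (b + c)))) := by field_simp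
    rw [e, abs_mul, abs_neg, abs_of_pos hri0]
    exact mul_le_mul hri hJ (abs_nonneg _) hC0.le
  have hx : |x| ≤ C ^ 2 * M := by
    have e : x = r * (x / r) := by field_simp
    rw [e, abs_mul, abs_of_pos hr]
    calc r * |x / r| ≤ C * (C * M) := mul_le_mul r2 hS (abs_nonneg _) hC0.le
      _ = C ^ 2 * M := by ring
  have hn : |n / (2 * r ^ 2) * (b + c)| ≤ C ^ 4 * M / 2 := by
    have e : n / (2 * r ^ 2) * (b + c) = n * (1 / r) * (1 / r) * (b + c) / 2 := by field_simp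
    rw [e, abs_div, abs_mul, abs_mul, abs_mul, abs_of_pos hri0, abs_of_pos (show (0 : ℝ) < 2 by norm_num)]
    have e1 : |n| * (1 / r) * (1 / r) * |b + c| ≤ C * C * C * (C * M) :=
      mul_le_mul (mul_le_mul (mul_le_mul k2 hri hri0.le hC0.le) hri hri0.le (by positivity)) hbc (abs_nonneg _) (by positivity)
    have e2 : C * C * C * (C * M) = C ^ 4 * M := by ring
    linarith
  have hκ : |κ * x / r| ≤ C ^ 2 * M := by
    have e : κ * x / r = κ * (x / r) := by ring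
    rw [e, abs_mul]
    calc |κ| * |x / r| ≤ C * (C * M) := mul_le_mul k1 hS (abs_nonneg _) hC0.le
      _ = C ^ 2 * M := by ring
  have p1 : C ≤ C ^ 4 := by
    calc C = C ^ 1 := (pow_one C).symm
      _ ≤ C ^ 4 := pow_le_pow_right₀ hC (by norm_num)
  have p2 : C ^ 2 ≤ C ^ 4 := pow_le_pow_right₀ hC (by norm_num)
  have p3 : 1 ≤ C ^ 4 := one_le_pow₀ hC
  have m1 : C * M ≤ C ^ 4 * M := mul_le_mul_of_nonneg_right p1 hM
  have m2 : C ^ 2 * M ≤ C ^ 4 * M := mul_le_mul_of_nonneg_right p2 hM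
  have m3 : M ≤ C ^ 4 * M := by nlinarith
  rw [abs_le] at hbc hx hn hκ hW
  refine ⟨?_, ?_, ?_⟩ <;> rw [abs_le] <;> constructor <;> linarith [hbc.1, hbc.2, hx.1, hx.2, hn.1, hn.2, hκ.1, hκ.2, hW.1, hW.2]

/-- quotients -/
theorem LST_quot (C δ J J' X X' : ℝ) (hC : 1 ≤ C) (hJ : 2 / C ≤ J) (hJ' : 2 / C ≤ J') (h1 : |J - J'| ≤ δ) (h2 : |X - X'| ≤ δ)
    (h3 : |X'| ≤ 3 / 2 * C * J') : |X / J - X' / J'| ≤ 5 / 4 * C ^ 2 * δ := by
  have hC0 : 0 < C := by linarith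
  have hJ0 : 0 < J := lt_of_lt_of_le (by positivity) hJ
  have hJ0' : 0 < J' := lt_of_lt_of_le (by positivity) hJ'
  have hδ : 0 ≤ δ := (abs_nonneg _).trans h1
  have e : X / J - X' / J' = (1 / J) * ((X - X') + (X' / J') * (J' - J)) := by
    field_simp
    ring
  have hi : 1 / J ≤ C / 2 := by
    rw [div_le_iff₀ hJ0]
    rw [div_le_iff₀ hC0] at hJ
    linarith
  have hq : |X' / J'| ≤ 3 / 2 * C := by
    rw [abs_div, abs_of_pos hJ0', div_le_iff₀ hJ0']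
    exact h3
  rw [e, abs_mul, abs_of_pos (by positivity : 0 < 1 / J)]
  have h4 : |(X - X') + (X' / J') * (J' - J)| ≤ δ + 3 / 2 * C * δ := by
    refine (abs_add_le _ _).trans ?_
    rw [abs_mul, abs_sub_comm J' J]
    exact add_le_add h2 (mul_le_mul hq h1 (abs_nonneg _) (by positivity))
  calc 1 / J * |(X - X') + (X' / J') * (J' - J)| ≤ C / 2 * (δ + 3 / 2 * C * δ) := mul_le_mul hi h4 (abs_nonneg _) (by positivity)
    _ = C / 2 * (1 + 3 / 2 * C) * δ := by ring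
    _ ≤ 5 / 4 * C ^ 2 * δ := mul_le_mul_of_nonneg_right (by nlinarith) hδ

theorem LST_log (C δ J J' : ℝ) (hC : 1 ≤ C) (hJ : 2 / C ≤ J) (hJ' : 2 / C ≤ J') (h1 : |J - J'| ≤ δ) :
    |Real.log J' - Real.log J| ≤ 5 / 4 * C ^ 2 * δ := by
  have hC0 : 0 < C := by linarith
  have hδ : 0 ≤ δ := (abs_nonneg _).trans h1
  have key : ∀ X Y : ℝ, 2 / C ≤ X → 2 / C ≤ Y → |X - Y| ≤ δ → Real.log X - Real.log Y ≤ 5 / 4 * C ^ 2 * δ := by
    intro X Y hX hY h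
    have hX0 : 0 < X := lt_of_lt_of_le (by positivity) hX
    have hY0 : 0 < Y := lt_of_lt_of_le (by positivity) hY
    rw [← Real.log_div hX0.ne' hY0.ne']
    have h2 := Real.log_le_sub_one_of_pos (div_pos hX0 hY0)
    have h3 : X / Y - 1 = (1 / Y) * (X - Y) := by field_simp
    have hi : 1 / Y ≤ C / 2 := by
      rw [div_le_iff₀ hY0]
      rw [div_le_iff₀ hC0] at hY
      linarith
    have h4 : (1 / Y) * (X - Y) ≤ C / 2 * δ := by
      calc (1 / Y) * (X - Y) ≤ (1 / Y) * δ := mul_le_mul_of_nonneg_left ((le_abs_self _).trans h) (by positivity)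
        _ ≤ C / 2 * δ := mul_le_mul_of_nonneg_right hi hδ
    have h5 : C / 2 * δ ≤ 5 / 4 * C ^ 2 * δ := by
      apply mul_le_mul_of_nonneg_right _ hδ
      nlinarith
    linarith
  rw [abs_le]
  constructor
  · have := key J J' hJ hJ' h1
    linarith
  · exact key J' J hJ' hJ (by rw [abs_sub_comm]; exact h1)

theorem LST_kM_cont : Continuous kM := by
  refine Continuous.subtype_mk ?_ _
  refine continuous_matrix fun i j => ?_
  fin_cases i <;> fin_cases j <;> simp <;> fun_prop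

/-- the rotations -/
theorem LST_cv (g : SL(2, ℝ)) : Cv (fun θ => g * kM θ) (fun _ => 0) (fun _ => 1) (fun _ => -1) := by
  refine ⟨fun v i j => ?_, continuous_const, continuous_const, continuous_const⟩
  have hk : ∀ i j : Fin 2, HasDerivAt (fun s => (kM s).1 i j) (((kM v).1 * !![(0 : ℝ) / 2, 1; -1, -(0 / 2)]) i j) v := by
    intro i j
    have e : ∀ i j : Fin 2, ((kM v).1 * !![(0 : ℝ) / 2, 1; -1, -(0 / 2)]) i j = !![-Real.sin v, Real.cos v; -Real.cos v, -Real.sin v] i j := by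
      intro i j
      fin_cases i <;> fin_cases j <;> simp [kM, Matrix.mul_apply, Fin.sum_univ_two]
    rw [e]
    fin_cases i <;> fin_cases j
    · exact Real.hasDerivAt_cos v
    · exact Real.hasDerivAt_sin v
    · exact (Real.hasDerivAt_sin v).neg
    · exact Real.hasDerivAt_cos v
  have h2 : ((g * kM v).1 * !![(0 : ℝ) / 2, 1; -1, -(0 / 2)]) i j =
      g.1 i 0 * ((kM v).1 * !![(0 : ℝ) / 2, 1; -1, -(0 / 2)]) 0 j + g.1 i 1 * ((kM v).1 * !![(0 : ℝ) / 2, 1; -1, -(0 / 2)]) 1 j := by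
    have h3 : (g * kM v).1 = g.1 * (kM v).1 := rfl
    rw [h3, Matrix.mul_assoc, Matrix.mul_apply, Fin.sum_univ_two]
  rw [h2]
  have h3 := ((hk 0 j).const_mul (g.1 i 0)).add ((hk 1 j).const_mul (g.1 i 1))
  refine h3.congr_of_eventuallyEq (Eventually.of_forall fun r => ?_)
  exact VQE.NMB_mul _ _ i j

theorem LST_FM {C F : ℝ} (hC : 1 ≤ C) (h : FM C ≤ F) : 80 * C ^ 8 * Real.exp (3 * C) ≤ F := by
  refine le_trans ?_ h
  unfold FM
  have h1 : Real.exp (3 * C) ≤ Real.exp (40 * C) := Real.exp_le_exp.2 (by linarith)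
  have h2 : 80 * C ^ 8 ≤ (10 * C) ^ 40 := by
    calc 80 * C ^ 8 ≤ 10 ^ 8 * C ^ 8 := by
          apply mul_le_mul_of_nonneg_right (by norm_num) (by positivity)
      _ = (10 * C) ^ 8 := by ring
      _ ≤ (10 * C) ^ 40 := pow_le_pow_right₀ (by linarith) (by norm_num)
  calc 80 * C ^ 8 * Real.exp (3 * C) ≤ (10 * C) ^ 40 * Real.exp (40 * C) := mul_le_mul h2 h1 (Real.exp_pos _).le (by positivity)
    _ = _ := mul_comm _ _

theorem LST_proof (hLS0 : LS0_stmt) : LST_stmt := by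
  intro k C F D hF hFM E g hE
  have hC := hF.c1
  have hC0 : 0 < C := by linarith
  obtain ⟨X, Y, Z, h0, hV, hCv⟩ := hF.vs E (fun θ => g * kM θ) (fun _ => 0) (fun _ => 1) (fun _ => -1) hE (LST_cv g)
  -- the fields
  have hli : ∀ g y : SL(2, ℝ), nm y ≤ 1 / 10 → |rho D.U E (g * y) - rho D.U E g| ≤ C * nm y ∧ |fa D.U E (g * y) - fa D.U E g| ≤ C * nm y ∧
      |fq D.U E (g * y) - fq D.U E g| ≤ C * nm y ∧ |fp D.U E (g * y) - fp D.U E g| ≤ C * nm y := by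
    intro g y hy
    obtain ⟨l1, -, -, l4, l5, l6⟩ := hF.li E E g y hE hE hy
    rw [sub_self, abs_zero, add_zero] at l1 l4 l5 l6
    exact ⟨l1, l4, l5, l6⟩
  have hcr : Continuous (rho D.U E) := LST_cont fun g y hy => (hli g y hy).1
  have hca : Continuous (fa D.U E) := LST_cont fun g y hy => (hli g y hy).2.1
  have hcq : Continuous (fq D.U E) := LST_cont fun g y hy => (hli g y hy).2.2.1
  have hcp : Continuous (fp D.U E) := LST_cont fun g y hy => (hli g y hy).2.2.2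
  have hfl : ∀ v : ℝ, Continuous (fun t : ℝ => D.fl E t (g * kM v)) := by
    intro v
    have h2 : Continuous (fun t : ℝ => ((E, (t, g * kM v)) : ℝ × ℝ × SL(2, ℝ))) :=
      continuous_const.prodMk (continuous_id.prodMk continuous_const)
    exact hF.cont.comp_continuous h2 fun _ => hE
  have hfv : Continuous (fun v : ℝ => D.fl E 1 (g * kM v)) := by
    have h2 : Continuous (fun v : ℝ => ((E, ((1 : ℝ), g * kM v)) : ℝ × ℝ × SL(2, ℝ))) :=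
      continuous_const.prodMk (continuous_const.prodMk (continuous_const.mul LST_kM_cont))
    exact hF.cont.comp_continuous h2 fun _ => hE
  obtain ⟨J, hJd⟩ : ∃ J : ℝ → ℝ → ℝ, J = fun v t => Jc D.U E (D.fl E t (g * kM v)) (Y t v) (Z t v) := ⟨_, rfl⟩
  obtain ⟨W, hWd⟩ : ∃ W : ℝ → ℝ → ℝ, W = fun v t => Wc D.U E (D.fl E t (g * kM v)) (X t v) (Y t v) (Z t v) := ⟨_, rfl⟩
  obtain ⟨S, hSd⟩ : ∃ S : ℝ → ℝ → ℝ, S = fun v t => Sc D.U E (D.fl E t (g * kM v)) (X t v) := ⟨_, rfl⟩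
  obtain ⟨a, ha⟩ : ∃ a : ℝ → ℝ → ℝ, a = fun v t => fa D.U E (D.fl E t (g * kM v)) := ⟨_, rfl⟩
  obtain ⟨q, hq⟩ : ∃ q : ℝ → ℝ → ℝ, q = fun v t => fq D.U E (D.fl E t (g * kM v)) := ⟨_, rfl⟩
  obtain ⟨p, hp⟩ : ∃ p : ℝ → ℝ → ℝ, p = fun v t => fp D.U E (D.fl E t (g * kM v)) := ⟨_, rfl⟩
  have hder : ∀ v t : ℝ, HasDerivAt (J v) (a v t * W v t) t ∧ HasDerivAt (W v) (q v t * J v t) t ∧ HasDerivAt (S v) (p v t * J v t) t := by
    intro v t
    rw [hJd, hWd, hSd, ha, hq, hp]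
    exact hF.jac E (g * kM v) (fun t => X t v) (fun t => Y t v) (fun t => Z t v) hE (hV v) t
  have hcoef : ∀ v t : ℝ, 1 / C ≤ a v t ∧ a v t ≤ C ∧ 1 / C ≤ q v t ∧ q v t ≤ C ∧ |p v t| ≤ C := by
    intro v t
    rw [ha, hq, hp]
    obtain ⟨-, -, r3, r4, r5, r6⟩ := hF.ro E (D.fl E t (g * kM v)) hE
    exact ⟨r3, r4, r5, r6, (hF.ka E (D.fl E t (g * kM v)) hE).2.2⟩
  have hJ0 : ∀ v : ℝ, J v 0 = 0 := by
    intro v
    rw [hJd]
    show Jc D.U E (D.fl E 0 (g * kM v)) (Y 0 v) (Z 0 v) = 0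
    rw [(h0 v).2.1, (h0 v).2.2, Jc]
    ring
  have hW0 : ∀ v : ℝ, W v 0 = 2 := by
    intro v
    rw [hWd]
    show Wc D.U E (D.fl E 0 (g * kM v)) (X 0 v) (Y 0 v) (Z 0 v) = 2
    rw [(h0 v).1, (h0 v).2.1, (h0 v).2.2, Wc]
    ring
  have hS0 : ∀ v : ℝ, S v 0 = 0 := by
    intro v
    rw [hSd]
    show Sc D.U E (D.fl E 0 (g * kM v)) (X 0 v) = 0
    rw [(h0 v).1, Sc, zero_div]
  have hL : ∀ v : ℝ, 2 / C ≤ J v 1 ∧ J v 1 ≤ 2 * Real.exp C ∧ J v 1 ≤ 3 / 2 * C * W v 1 ∧ W v 1 ≤ 3 / 2 * C * J v 1 ∧ |S v 1| ≤ C * J v 1 ∧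
      ∀ t : ℝ, 0 ≤ t → t ≤ 1 → |J v t| ≤ 2 * Real.exp C ∧ |W v t| ≤ 2 * Real.exp C ∧ |S v t| ≤ 2 * C * Real.exp C := by
    intro v
    refine hLS0 C (a v) (q v) (p v) (J v) (W v) (S v) hC ?_ ?_ ?_ (fun t _ => hcoef v t) (hder v) (hJ0 v) (hW0 v) (hS0 v)
    · rw [ha]
      exact hca.comp (hfl v)
    · rw [hq]
      exact hcq.comp (hfl v)
    · rw [hp]
      exact hcp.comp (hfl v)
  have heC : 0 < Real.exp C := Real.exp_pos C
  -- the size of the variation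
  obtain ⟨Ω, hΩ⟩ : ∃ Ω : ℝ, Ω = 2 * C ^ 4 * (2 * Real.exp C) := ⟨_, rfl⟩
  have hΩ0 : 0 < Ω := by rw [hΩ]; positivity
  have hom : ∀ t : ℝ, 0 ≤ t → t ≤ 1 → ∀ v : ℝ, |X t v / 2| ≤ Ω ∧ |Y t v| ≤ Ω ∧ |Z t v| ≤ Ω := by
    intro t ht0 ht1 v
    obtain ⟨l1, l2, l3⟩ := (hL v).2.2.2.2.2 t ht0 ht1
    rw [hJd] at l1
    rw [hWd] at l2
    rw [hSd] at l3
    rw [hΩ]
    exact LST_om hF hE (D.fl E t (g * kM v)) (X t v) (Y t v) (Z t v) (2 * Real.exp C) l1 l2 (l3.trans (le_of_eq (by ring)))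
  have hF1 := LST_FM hC hFM
  have hC8 : 1 ≤ C ^ 8 := one_le_pow₀ hC
  have he3 : 1 ≤ Real.exp (3 * C) := Real.one_le_exp (by linarith)
  have hFone : 1 ≤ F := by nlinarith
  have hF0 : 0 < F := by linarith
  -- the comparison at the time `1`
  obtain ⟨δ, hδ⟩ : ∃ δ : ℝ → ℝ, δ = fun Δ => 2 * Real.exp C * (C * (2 * Ω * Δ)) * Real.exp C := ⟨_, rfl⟩
  have hcmp : ∀ θ θ' : ℝ, θ ≤ θ' → 2 * Ω * (θ' - θ) ≤ 1 / 10 →
      |J θ 1 - J θ' 1| ≤ δ (θ' - θ) ∧ |W θ 1 - W θ' 1| ≤ δ (θ' - θ) ∧ |S θ 1 - S θ' 1| ≤ δ (θ' - θ) := by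
    intro θ θ' hθ hs
    rw [hδ]
    have hnn : 0 ≤ θ' - θ := by linarith
    refine LST_ode C (C * (2 * Ω * (θ' - θ))) (2 * Real.exp C) (a θ) (q θ) (p θ) (J θ) (W θ) (S θ) (a θ') (q θ') (p θ') (J θ') (W θ') (S θ') hC
      (by positivity) ?_ (hder θ) (hder θ') ⟨by rw [hJ0, hJ0], by rw [hW0, hW0], by rw [hS0, hS0]⟩
    intro t ht0 ht1
    obtain ⟨c1, c2, c3, c4, c5⟩ := hcoef θ t
    have hCi : 0 < 1 / C := by positivity
    have hn := LST_nm (hCv t) hΩ0 (hom t ht0 ht1) θ θ' hθ (by linarith)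
    have hn' : nm ((D.fl E t (g * kM θ))⁻¹ * D.fl E t (g * kM θ')) ≤ 2 * Ω * (θ' - θ) := hn
    obtain ⟨-, m2, m3, m4⟩ := hli (D.fl E t (g * kM θ)) ((D.fl E t (g * kM θ))⁻¹ * D.fl E t (g * kM θ')) (hn'.trans hs)
    rw [mul_inv_cancel_left] at m2 m3 m4
    have hCn := mul_le_mul_of_nonneg_left hn' hC0.le
    obtain ⟨l1, l2, -⟩ := (hL θ').2.2.2.2.2 t ht0 ht1
    refine ⟨by rw [abs_of_nonneg (by linarith)]; exact c2, by rw [abs_of_nonneg (by linarith)]; exact c4, c5, ?_, ?_, ?_, l1, l2⟩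
    · rw [ha, abs_sub_comm]
      exact m2.trans hCn
    · rw [hq, abs_sub_comm]
      exact m3.trans hCn
    · rw [hp, abs_sub_comm]
      exact m4.trans hCn
  -- the unstable length
  have hcJ : Continuous (fun v : ℝ => J v 1) := by
    rw [hJd]
    show Continuous (fun v : ℝ => -(rho D.U E (D.fl E 1 (g * kM v)) * (Y 1 v + Z 1 v)))
    exact ((hcr.comp hfv).mul ((hCv 1).cb.add (hCv 1).cc)).neg
  obtain ⟨l, hl⟩ : ∃ l : ℝ → ℝ, l = fun v => ∫ s in (0 : ℝ)..v, J s 1 := ⟨_, rfl⟩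
  have hdl : ∀ v : ℝ, HasDerivAt l (J v 1) v := by
    intro v
    rw [hl]
    exact intervalIntegral.integral_hasDerivAt_right (hcJ.intervalIntegrable _ _) (hcJ.stronglyMeasurableAtFilter _ _) hcJ.continuousAt
  have hlb : ∀ θ θ' : ℝ, θ ≤ θ' → 2 / C * (θ' - θ) ≤ l θ' - l θ ∧ l θ' - l θ ≤ 2 * Real.exp C * (θ' - θ) := by
    intro θ θ' hθ
    rcases eq_or_lt_of_le hθ with h | h
    · rw [h, sub_self, sub_self, mul_zero, mul_zero]
      exact ⟨le_rfl, le_rfl⟩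
    · obtain ⟨ξ, -, hξ⟩ := exists_hasDerivAt_eq_slope l (fun v => J v 1) h (fun x _ => (hdl x).continuousAt.continuousWithinAt) (fun x _ => hdl x)
      have hp0 : 0 < θ' - θ := by linarith
      have e : l θ' - l θ = J ξ 1 * (θ' - θ) := by
        rw [hξ]
        field_simp
      rw [e]
      exact ⟨mul_le_mul_of_nonneg_right (hL ξ).1 hp0.le, mul_le_mul_of_nonneg_right (hL ξ).2.1 hp0.le⟩
  have hJpos : ∀ v : ℝ, 0 < J v 1 := fun v => lt_of_lt_of_le (by positivity) (hL v).1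
  -- the main bound
  have hmain : ∀ θ θ' : ℝ, θ ≤ θ' → 1 / 2 * (l θ' - l θ) ≤ 1 / F ^ 4 →
      |W θ 1 / J θ 1 - W θ' 1 / J θ' 1| ≤ 1 / 2 * F * (l θ' - l θ) ∧ |S θ 1 / J θ 1 - S θ' 1 / J θ' 1| ≤ 1 / 2 * F * (l θ' - l θ) ∧
      |Real.log (J θ' 1) - Real.log (J θ 1)| ≤ 1 / 2 * F * (l θ' - l θ) := by
    intro θ θ' hθ hs
    have hnn : 0 ≤ θ' - θ := by linarith
    obtain ⟨b1, -⟩ := hlb θ θ' hθ
    have hsm : θ' - θ ≤ C / F ^ 4 := by
      have h1 : 1 / 2 * (2 / C * (θ' - θ)) ≤ 1 / F ^ 4 := (mul_le_mul_of_nonneg_left b1 (by norm_num)).trans hs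
      have h2 : 1 / 2 * (2 / C * (θ' - θ)) = (θ' - θ) / C := by field_simp
      rw [h2, div_le_iff₀ hC0] at h1
      calc θ' - θ ≤ 1 / F ^ 4 * C := h1
        _ = C / F ^ 4 := by ring
    have hF4 : F ≤ F ^ 4 := by
      calc F = F ^ 1 := (pow_one F).symm
        _ ≤ F ^ 4 := pow_le_pow_right₀ hFone (by norm_num)
    have hexp : Real.exp C ≤ Real.exp (3 * C) := Real.exp_le_exp.2 (by linarith)
    have hsm2 : 2 * Ω * (θ' - θ) ≤ 1 / 10 := by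
      have h1 : 2 * Ω * (θ' - θ) ≤ 2 * Ω * (C / F ^ 4) := mul_le_mul_of_nonneg_left hsm (by positivity)
      have h2 : 2 * Ω * (C / F ^ 4) = 8 * C ^ 5 * Real.exp C / F ^ 4 := by rw [hΩ]; ring
      have h3 : 80 * C ^ 5 * Real.exp C ≤ F ^ 4 := by
        have h4 : C ^ 5 ≤ C ^ 8 := pow_le_pow_right₀ hC (by norm_num)
        have h5 : 80 * C ^ 5 * Real.exp C ≤ 80 * C ^ 8 * Real.exp (3 * C) :=
          mul_le_mul (by linarith) hexp heC.le (by positivity)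
        linarith
      have h4 : 8 * C ^ 5 * Real.exp C / F ^ 4 ≤ 1 / 10 := by
        rw [div_le_iff₀ (by positivity)]
        linarith
      linarith
    obtain ⟨d1, d2, d3⟩ := hcmp θ θ' hθ hsm2
    have hfin : 5 / 4 * C ^ 2 * δ (θ' - θ) ≤ 1 / 2 * F * (l θ' - l θ) := by
      have h1 : 5 / 4 * C ^ 2 * δ (θ' - θ) = 20 * C ^ 7 * Real.exp (3 * C) * (θ' - θ) := by
        have h2 : Real.exp (3 * C) = Real.exp C * Real.exp C * Real.exp C := by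
          rw [← Real.exp_add, ← Real.exp_add]
          congr 1
          ring
        rw [hδ, h2, hΩ]
        ring
      have h2 : 1 / 2 * F * (2 / C * (θ' - θ)) ≤ 1 / 2 * F * (l θ' - l θ) := mul_le_mul_of_nonneg_left b1 (by positivity)
      have h3 : 1 / 2 * F * (2 / C * (θ' - θ)) = F / C * (θ' - θ) := by field_simp
      have h4 : 20 * C ^ 7 * Real.exp (3 * C) ≤ F / C := by
        rw [le_div_iff₀ hC0]
        have h5 : 20 * C ^ 7 * Real.exp (3 * C) * C = 20 * C ^ 8 * Real.exp (3 * C) := by ring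
        have h6 : 0 ≤ C ^ 8 * Real.exp (3 * C) := by positivity
        linarith
      have h5 := mul_le_mul_of_nonneg_right h4 hnn
      linarith
    obtain ⟨e1, -, e3, e4, e5, -⟩ := hL θ'
    have e1' := (hL θ).1
    have hJ' := hJpos θ'
    have hWpos : 0 < W θ' 1 := by
      by_contra hcon
      rw [not_lt] at hcon
      have : 3 / 2 * C * W θ' 1 ≤ 0 := mul_nonpos_of_nonneg_of_nonpos (by positivity) hcon
      linarith
    refine ⟨?_, ?_, ?_⟩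
    · exact (LST_quot C _ _ _ _ _ hC e1' e1 d1 d2 (by rw [abs_of_pos hWpos]; exact e4)).trans hfin
    · refine (LST_quot C _ _ _ _ _ hC e1' e1 d1 d3 (e5.trans ?_)).trans hfin
      apply mul_le_mul_of_nonneg_right _ hJ'.le
      linarith
    · exact (LST_log C _ _ _ hC e1' e1 d1).trans hfin
  have hFF2 : F ≤ F ^ 2 := by nlinarith
  have hFF3 : F ≤ F ^ 3 := by
    calc F = F ^ 1 := (pow_one F).symm
      _ ≤ F ^ 3 := pow_le_pow_right₀ hFone (by norm_num)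
  refine ⟨X 1, Y 1, Z 1, l, ?_, hlb⟩
  have hJd1 : ∀ v : ℝ, Jc D.U E (D.fl E 1 (g * kM v)) (Y 1 v) (Z 1 v) = J v 1 := fun v => by rw [hJd]
  have hWd1 : ∀ v : ℝ, Wc D.U E (D.fl E 1 (g * kM v)) (X 1 v) (Y 1 v) (Z 1 v) = W v 1 := fun v => by rw [hWd]
  have hSd1 : ∀ v : ℝ, Sc D.U E (D.fl E 1 (g * kM v)) (X 1 v) = S v 1 := fun v => by rw [hSd]
  refine { toCN := { toCv := hCv 1, pos := ?_, dl := ?_, cl := ?_, cu := ?_, cs := ?_ }, su := ?_, ss := ?_, di := ?_ }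
  · intro v
    show 0 < Jc D.U E (D.fl E 1 (g * kM v)) (Y 1 v) (Z 1 v)
    rw [hJd1]
    exact hJpos v
  · intro v
    show HasDerivAt l (Jc D.U E (D.fl E 1 (g * kM v)) (Y 1 v) (Z 1 v)) v
    rw [hJd1]
    exact hdl v
  · intro v
    show Jc D.U E (D.fl E 1 (g * kM v)) (Y 1 v) (Z 1 v) ≤ (1 + 1 / 2) * C * Wc D.U E (D.fl E 1 (g * kM v)) (X 1 v) (Y 1 v) (Z 1 v)
    rw [hJd1, hWd1]
    have := (hL v).2.2.1
    linarith
  · intro v
    show Wc D.U E (D.fl E 1 (g * kM v)) (X 1 v) (Y 1 v) (Z 1 v) ≤ (1 + 1 / 2) * C * Jc D.U E (D.fl E 1 (g * kM v)) (Y 1 v) (Z 1 v)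
    rw [hJd1, hWd1]
    have := (hL v).2.2.2.1
    linarith
  · intro v
    show |Sc D.U E (D.fl E 1 (g * kM v)) (X 1 v)| ≤ (1 + 1 / 2) * (6 * C ^ 3) * Jc D.U E (D.fl E 1 (g * kM v)) (Y 1 v) (Z 1 v)
    rw [hJd1, hSd1]
    refine (hL v).2.2.2.2.1.trans ?_
    apply mul_le_mul_of_nonneg_right _ (hJpos v).le
    have h3 : C ≤ C ^ 3 := by
      calc C = C ^ 1 := (pow_one C).symm
        _ ≤ C ^ 3 := pow_le_pow_right₀ hC (by norm_num)
    linarith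
  · intro v v' hv hs
    show |Wc D.U E (D.fl E 1 (g * kM v)) (X 1 v) (Y 1 v) (Z 1 v) / Jc D.U E (D.fl E 1 (g * kM v)) (Y 1 v) (Z 1 v) -
      Wc D.U E (D.fl E 1 (g * kM v')) (X 1 v') (Y 1 v') (Z 1 v') / Jc D.U E (D.fl E 1 (g * kM v')) (Y 1 v') (Z 1 v')| ≤ 1 / 2 * F * (l v' - l v)
    rw [hJd1, hWd1, hJd1, hWd1]
    exact (hmain v v' hv hs).1
  · intro v v' hv hs
    show |Sc D.U E (D.fl E 1 (g * kM v)) (X 1 v) / Jc D.U E (D.fl E 1 (g * kM v)) (Y 1 v) (Z 1 v) -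
      Sc D.U E (D.fl E 1 (g * kM v')) (X 1 v') / Jc D.U E (D.fl E 1 (g * kM v')) (Y 1 v') (Z 1 v')| ≤ 1 / 2 * F ^ 2 * (l v' - l v)
    rw [hJd1, hSd1, hJd1, hSd1]
    refine (hmain v v' hv hs).2.1.trans ?_
    have hll : 0 ≤ l v' - l v := le_trans (mul_nonneg (by positivity) (by linarith)) (hlb v v' hv).1
    exact mul_le_mul_of_nonneg_right (by linarith) hll
  · intro v v' hv hs
    show |Real.log (Jc D.U E (D.fl E 1 (g * kM v')) (Y 1 v') (Z 1 v')) - Real.log (Jc D.U E (D.fl E 1 (g * kM v)) (Y 1 v) (Z 1 v))| ≤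
      1 / 2 * F ^ 3 * (l v' - l v)
    rw [hJd1, hJd1]
    refine (hmain v v' hv hs).2.2.trans ?_
    have hll : 0 ≤ l v' - l v := le_trans (mul_nonneg (by positivity) (by linarith)) (hlb v v' hv).1
    exact mul_le_mul_of_nonneg_right (by linarith) hll

end

end Pool.Agent.VN
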