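import Pool.Agent.helper84.VN.Spec4n
import Pool.Agent.helper14.VQE.NMB

/-!
# Project VN (MP_07c750_an), block 4a, row SG4: shadowing
-/

set_option autoImplicit false

open scoped MatrixGroups ContDiff Topology UpperHalfPlane ComplexConjugate ENNReal
open UpperHalfPlane MeasureTheory Filter Set

namespace Pool.Agent.VN

open Pool.Agent.RS Pool.Agent.VQ
open Pool.Agent.VQE (nm)

noncomputable section

theorem SG4_nm_one : nm (1 : SL(2, ℝ)) = 0 := by
  simp [nm]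

theorem SG4_kM_cont : Continuous kM := by
  refine Continuous.subtype_mk ?_ _
  refine continuous_matrix fun i j => ?_
  fin_cases i <;> fin_cases j <;> simp <;> fun_prop

theorem SG4_kM_inv (θ : ℝ) : (kM θ)⁻¹ = kM (-θ) := by
  rw [inv_eq_iff_mul_eq_one]
  have h := Real.sin_sq_add_cos_sq θ
  ext i j
  fin_cases i <;> fin_cases j <;> simp [kM, Matrix.mul_apply, Fin.sum_univ_two] <;> nlinarith

theorem SG4_nm_kM (θ : ℝ) (hθ : |θ| ≤ 1) : nm (kM θ) ≤ |θ| := by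
  have h1 : |Real.sin θ| ≤ |θ| := Real.abs_sin_le_abs
  have h2 : |Real.cos θ - 1| ≤ |θ| := by
    have h3 := Real.one_sub_sq_div_two_le_cos (x := θ)
    have h4 := Real.cos_le_one θ
    rw [abs_sub_comm, abs_of_nonneg (by linarith)]
    have h5 : θ ^ 2 = |θ| ^ 2 := (sq_abs θ).symm
    have h6 : |θ| ^ 2 ≤ |θ| * 1 := by
      rw [sq]
      exact mul_le_mul_of_nonneg_left hθ (abs_nonneg _)
    have := abs_nonneg θ
    linarith
  unfold nm
  have e00 : (kM θ).1 0 0 = Real.cos θ := rfl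
  have e01 : (kM θ).1 0 1 = Real.sin θ := rfl
  have e10 : (kM θ).1 1 0 = -Real.sin θ := rfl
  have e11 : (kM θ).1 1 1 = Real.cos θ := rfl
  rw [e00, e01, e10, e11, abs_neg]
  exact max_le (max_le h2 h1) (max_le h1 h2)

/-- centred elements without symmetric part are rotations -/
theorem SG4_rot (z : SL(2, ℝ)) (r : ℝ) (h1 : z.1 0 0 = z.1 1 1) (h2 : z.1 0 1 + z.1 1 0 = 0) (h3 : nm z ≤ r) (h4 : r ≤ 1 / 2) :
    ∃ η : ℝ, z = kM η ∧ |η| ≤ 2 * r := by
  have d0 := VQE.NMB_le z 0 0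
  have d1 := VQE.NMB_le z 0 1
  have e1 : (1 : Matrix (Fin 2) (Fin 2) ℝ) 0 0 = 1 := by simp
  have e2 : (1 : Matrix (Fin 2) (Fin 2) ℝ) 0 1 = 0 := by simp
  rw [e1] at d0
  rw [e2, sub_zero] at d1
  have hpos : 0 < z.1 0 0 := by
    have := (abs_le.1 d0).1
    linarith
  have hdet : z.1 0 0 * z.1 1 1 - z.1 0 1 * z.1 1 0 = 1 := by
    have := z.2
    rwa [Matrix.det_fin_two] at this
  have h10 : z.1 1 0 = -z.1 0 1 := by linarith
  have hsq : z.1 0 0 ^ 2 + z.1 0 1 ^ 2 = 1 := by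
    rw [← h1, h10] at hdet
    nlinarith
  have hx := abs_le.1 (d1.trans (h3.trans h4))
  have hs : Real.sin (Real.arcsin (z.1 0 1)) = z.1 0 1 := Real.sin_arcsin (by linarith [hx.1]) (by linarith [hx.2])
  have hc : Real.cos (Real.arcsin (z.1 0 1)) = z.1 0 0 := by
    rw [Real.cos_arcsin]
    have : 1 - z.1 0 1 ^ 2 = z.1 0 0 ^ 2 := by linarith
    rw [this, Real.sqrt_sq hpos.le]
  refine ⟨Real.arcsin (z.1 0 1), ?_, ?_⟩
  · apply Subtype.ext
    ext i j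
    fin_cases i <;> fin_cases j
    · exact hc.symm
    · exact hs.symm
    · show z.1 1 0 = -Real.sin (Real.arcsin (z.1 0 1))
      rw [hs, h10]
    · show z.1 1 1 = Real.cos (Real.arcsin (z.1 0 1))
      rw [hc, h1]
  · have h5 : |Real.arcsin (z.1 0 1)| ≤ Real.pi / 2 := abs_le.2 ⟨Real.neg_pi_div_two_le_arcsin _, Real.arcsin_le_pi_div_two _⟩
    have h6 := Real.mul_abs_le_abs_sin h5
    rw [hs] at h6
    have h7 : 1 / 2 ≤ 2 / Real.pi := by
      rw [div_le_div_iff₀ (by norm_num) Real.pi_pos]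
      have := Real.pi_le_four
      linarith
    have h8 : 1 / 2 * |Real.arcsin (z.1 0 1)| ≤ 2 / Real.pi * |Real.arcsin (z.1 0 1)| :=
      mul_le_mul_of_nonneg_right h7 (abs_nonneg _)
    linarith

theorem SG4_adm {C C' : ℝ} {A : Prm} (hC : 0 < C) (h : C ≤ C') (hA : Adm C' A) : Adm C A := by
  have e := hA.e3
  have hC' : 0 < C' := by linarith
  have z0 : 0 < A.z := lt_of_lt_of_le (mul_pos hC' e) hA.z
  have z10 : 0 < A.z1 := lt_of_lt_of_le (mul_pos hC' z0) hA.z1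
  have z20 : 0 < A.z2 := lt_of_lt_of_le (mul_pos hC' z10) hA.z2
  refine ⟨e, hA.m, ?_, ?_, ?_, ?_, hA.tu⟩
  · exact (mul_le_mul_of_nonneg_right h e.le).trans hA.z
  · exact (mul_le_mul_of_nonneg_right h z0.le).trans hA.z1
  · exact (mul_le_mul_of_nonneg_right h z10.le).trans hA.z2
  · refine (mul_le_mul_of_nonneg_right h ?_).trans hA.up
    positivity

theorem SG4_small {C : ℝ} {A : Prm} (hC : 1 ≤ C) (hA : Adm C A) : C * (A.m * A.e3) ≤ 1 ∧ 0 < A.z2 ∧ C * A.z2 ≤ 1 := by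
  have e := hA.e3
  have z0 : A.e3 ≤ A.z := by nlinarith [hA.z]
  have z10 : A.z ≤ A.z1 := by nlinarith [hA.z1]
  have z20 : A.z1 ≤ A.z2 := by nlinarith [hA.z2]
  have hm : (1 : ℝ) ≤ A.m := by exact_mod_cast hA.m
  have h1 : (A.m : ℝ) * A.e3 ≤ A.m * A.z2 := mul_le_mul_of_nonneg_left (by linarith) (by linarith)
  have h2 : C * (A.m * A.e3) ≤ C * (A.m * A.z2) := mul_le_mul_of_nonneg_left h1 (by linarith)
  have h3 : 1 * A.z2 ≤ A.m * A.z2 := mul_le_mul_of_nonneg_right hm (by linarith)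
  have h4 : C * (1 * A.z2) ≤ C * (A.m * A.z2) := mul_le_mul_of_nonneg_left h3 (by linarith)
  refine ⟨by linarith [hA.up], by linarith, by linarith [hA.up]⟩

/-- the orbit of `g` as a pseudo-orbit -/
theorem SG4_PO {k C : ℝ} {D : Dyn} (hF : FNE k C D) {E t ε : ℝ} (n : ℕ) (g : SL(2, ℝ)) (hE : |E| ≤ k) (hε : 0 ≤ ε) :
    PO D (4 * k) t ε n (fun i => (D.fl E (i * t) g, E)) := by
  refine ⟨fun i _ => by show |E| ≤ 4 * k / 4; linarith, fun i _ => ⟨?_, ?_⟩⟩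
  · have h1 : (((i + 1 : ℕ) : ℝ) * t) = t + i * t := by push_cast; ring
    simp only [h1]
    rw [hF.add E t (i * t) g hE, inv_mul_cancel, SG4_nm_one]
    exact hε
  · simp only [sub_self, abs_zero]
    exact hε

theorem SG4_neg (a c : ℝ) (ha : a < 0) (hc : 0 < c) : ∀ᶠ R : ℝ in atTop, R ^ a ≤ c := by
  have h := tendsto_rpow_neg_atTop (y := -a) (by linarith)
  rw [neg_neg] at h
  exact (h.eventually (gt_mem_nhds hc)).mono fun R hR => le_of_lt hR

/-- products of small elements -/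
theorem SG4_nm3 (a x : SL(2, ℝ)) (η : ℝ) (ha : nm a ≤ η) (hx : nm x ≤ η) (hη : η ≤ 1 / 2) : nm (a⁻¹ * x) ≤ 3 * η := by
  have h1 := VQE.NMB_sub a⁻¹ x
  rw [VQE.NMB_ninv] at h1
  have h2 := VQE.NMB_nonneg a
  have h3 := VQE.NMB_nonneg x
  have h4 : nm a * nm x ≤ η * (1 / 2) := mul_le_mul ha (hx.trans hη) h3 (by linarith)
  nlinarith

theorem SG4_proof (hFN4 : FN4_stmt) (hGN4 : GN4_stmt) (hUR4 : UR4_stmt) (hSW4 : SW4_stmt) (hCT4 : CT4_stmt) (hCE4 : CE4_stmt)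
    (hGF4 : GF4_stmt) (hAR4 : VQ.AR4_stmt) : SG4_stmt := by
  intro Γ hΓ k B hk
  obtain ⟨C0, H0⟩ := hFN4 Γ hΓ k B hk
  obtain ⟨KG, hKG, HG⟩ := hGN4 k C0
  obtain ⟨KU, hKU, HU⟩ := hUR4 k C0
  obtain ⟨KS, hKS, HS⟩ := hSW4 k C0
  obtain ⟨KF, hKF, HF⟩ := hGF4 k C0
  obtain ⟨K, hK1, hG, hU, hS, hFF⟩ : ∃ K : ℝ, 1 ≤ K ∧ KG ≤ K ∧ KU ≤ K ∧ KS ≤ K ∧ KF ≤ K := by
    refine ⟨max (max KG KU) (max KS KF), ?_, ?_, ?_, ?_, ?_⟩
    · exact hKG.trans ((le_max_left _ _).trans (le_max_left _ _))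
    · exact (le_max_left _ _).trans (le_max_left _ _)
    · exact (le_max_right _ _).trans (le_max_left _ _)
    · exact (le_max_left _ _).trans (le_max_right _ _)
    · exact (le_max_right _ _).trans (le_max_right _ _)
  refine ⟨40 * K, by linarith, fun A hA => ?_⟩
  have hA10 : Adm 10 A := SG4_adm (by norm_num) (by linarith) hA
  obtain ⟨hme, hz20, hz2⟩ := SG4_small (by linarith) hA
  have hz2' : A.z2 ≤ 1 / 40 := by nlinarith
  obtain ⟨R0, hR0, HA⟩ := hAR4 A 1 (4 * K) (4 * k) hA10 le_rfl (by linarith) (by linarith)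
  obtain ⟨R1, hR1⟩ := eventually_atTop.1 (SG4_neg (-(3 / 10)) (1 / (10 * K ^ 2)) (by norm_num) (by positivity))
  refine ⟨max R0 R1, le_trans (by linarith) (le_max_left _ _), fun R D hR hD p q hpq => ?_⟩
  have hF := H0 D hD
  have hηK := hR1 R ((le_max_right _ _).trans hR)
  obtain ⟨k', t, ε, hk', ht1, ht2, hsg, hr0, hr1, hε, h3r, h2r, hKn, hρ, hE, -, -⟩ := HA R ((le_max_left _ _).trans hR)
  have hR3 : 3 ≤ R := hR0.trans ((le_max_left _ _).trans hR)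
  have hRpos : 0 < R := by linarith
  have hE' : ∀ E ∈ Wi 2 R, |E| ≤ k := fun E h => by have := hE E h; linarith
  obtain ⟨w, hw, hw0, hwn, hwE⟩ := hCE4 k C0 D hF A R t ε k' 1 (fun j => if j = 0 then p else q) hsg hk' hA.m hr0 hr1 h3r hE' le_rfl (by
    intro j hj
    have hj0 : j = 0 := by omega
    subst hj0
    simpa using hpq)
  have hwn1 := hwn 1 le_rfl
  simp only [one_mul, if_true, one_ne_zero, if_false, Nat.cast_one] at hw hw0 hwn1 hwE hKn h2r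
  set n : ℕ := A.m * k' with hn
  set ρ : ℝ := R ^ (-(1 / 2) + 3 / 2 * A.z2) with hρd
  have hρ0 : 0 < ρ := Real.rpow_pos_of_pos hRpos _
  have hnn : (0 : ℝ) ≤ n := Nat.cast_nonneg n
  have hn1 : 1 ≤ n := Nat.one_le_iff_ne_zero.2 (Nat.mul_ne_zero (by have := hA.m; omega) (by omega))
  have hnt : A.tu R = n * t := by
    rw [Prm.tu, hsg, hn]
    push_cast
    ring
  have hnt0 : 0 ≤ n * t := mul_nonneg hnn (by linarith)
  have hKn' : K * ((n + 1) * ε) ≤ ρ / 4 := by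
    have : 4 * K * ((n + 1) * ε) ≤ ρ := hKn
    linarith
  have hne : 0 ≤ (n + 1) * ε := by positivity
  have hKSn : KS * ((n + 1) * ε) ≤ ρ / 4 := (mul_le_mul_of_nonneg_right hS hne).trans hKn'
  have hρK : ρ ≤ 1 / (40 * K) := by
    have e : 10 * (4 * K) = 40 * K := by ring
    rw [e] at hρ
    exact hρ
  have hK40 : 1 / (40 * K) ≤ 1 / K := one_div_le_one_div_of_le (by linarith) (by linarith)
  have hK401 : 1 / (40 * K) ≤ 1 / 40 := one_div_le_one_div_of_le (by norm_num) (by linarith)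
  have hKinvS : 1 / K ≤ 1 / KS := one_div_le_one_div_of_le (by linarith) hS
  have hKinvU : 1 / K ≤ 1 / KU := one_div_le_one_div_of_le (by linarith) hU
  have hpE : |p.2| ≤ k := by
    have h := hw.en 0 (Nat.zero_le _)
    rw [hw0] at h
    linarith
  -- the exponential
  have hexp : Real.exp (K * (n * t)) ≤ R ^ (1 / 40 : ℝ) := by
    rw [Real.rpow_def_of_pos hRpos, ← hnt, Prm.tu, Prm.sg]
    apply Real.exp_le_exp.2
    have hlog : 0 ≤ Real.log R := Real.log_nonneg (by linarith)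
    have h1 : K * (A.m * A.e3) ≤ 1 / 40 := by linarith
    calc K * (A.m * (A.e3 * Real.log R)) = K * (A.m * A.e3) * Real.log R := by ring
      _ ≤ 1 / 40 * Real.log R := mul_le_mul_of_nonneg_right h1 hlog
      _ = Real.log R * (1 / 40) := mul_comm _ _
  have hρR : ρ * R ^ (1 / 40 : ℝ) ≤ R ^ (-(3 / 10) : ℝ) := by
    rw [hρd, ← Real.rpow_add hRpos]
    exact Real.rpow_le_rpow_of_exponent_le (by linarith) (by linarith)
  set η : ℝ := R ^ (-(3 / 10) : ℝ) with hη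
  have hη0 : 0 < η := Real.rpow_pos_of_pos hRpos _
  have hK2 : K ≤ K ^ 2 := by nlinarith
  have hηK1 : η ≤ 1 / (10 * K) := hηK.trans (one_div_le_one_div_of_le (by linarith) (by linarith))
  have h10K : 1 / (10 * K) ≤ 1 / 10 := one_div_le_one_div_of_le (by norm_num) (by linarith)
  have h3η : 3 * η ≤ 1 / K := by
    have : 1 / (10 * K) = 1 / 10 * (1 / K) := by field_simp
    have h0 : 0 < 1 / K := by positivity
    linarith
  -- the pseudo-orbit follows the orbit of `p`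
  have hfol : ∀ i ≤ n, nm ((D.fl p.2 (i * t) p.1)⁻¹ * (w i).1) ≤ η := by
    have hexpF : Real.exp (KF * (n * t)) ≤ R ^ (1 / 40 : ℝ) :=
      (Real.exp_le_exp.2 (mul_le_mul_of_nonneg_right hFF hnt0)).trans hexp
    have h1 : KF * ((n + 1) * ε * Real.exp (KF * (n * t))) ≤ η := by
      calc KF * ((n + 1) * ε * Real.exp (KF * (n * t))) = KF * ((n + 1) * ε) * Real.exp (KF * (n * t)) := by ring
        _ ≤ ρ * R ^ (1 / 40 : ℝ) := by
            apply mul_le_mul _ hexpF (Real.exp_pos _).le hρ0.le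
            have := mul_le_mul_of_nonneg_right hFF hne
            linarith
        _ ≤ η := hρR
    have h2 : ∀ i ≤ n, |(w i).2 - (w 0).2| ≤ ε := by
      intro i hi
      rw [hw0]
      have := hwE i hi
      have h3 : 0 ≤ (A.m + 1) * A.r R := by positivity
      linarith
    intro i hi
    have h3 := HF D hF t ε n w (by linarith) hε.le (h1.trans (by linarith)) hw h2 i hi
    rw [hw0] at h3
    exact h3.trans h1
  have hfolθ : ∀ θ : ℝ, |θ| ≤ ρ → ∀ i ≤ n, nm ((D.fl p.2 (i * t) p.1)⁻¹ * D.fl p.2 (i * t) (p.1 * kM θ)) ≤ η := by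
    intro θ hθ i hi
    have h1 := HG D hF p.2 p.2 (i * t) 0 p.1 (p.1 * kM θ) hpE hpE (by rw [sub_self, abs_zero])
    have h2 : p.1⁻¹ * (p.1 * kM θ) = kM θ := by rw [inv_mul_cancel_left]
    rw [h2, add_zero] at h1
    have hi0 : (0 : ℝ) ≤ i * t := mul_nonneg (Nat.cast_nonneg _) (by linarith)
    have hin : (i : ℝ) * t ≤ n * t := mul_le_mul_of_nonneg_right (by exact_mod_cast hi) (by linarith)
    rw [abs_of_nonneg hi0] at h1
    have h3 : Real.exp (KG * (i * t)) ≤ R ^ (1 / 40 : ℝ) := by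
      refine (Real.exp_le_exp.2 ?_).trans hexp
      exact mul_le_mul hG hin hi0 (by linarith)
    have h4 : nm (kM θ) ≤ ρ := (SG4_nm_kM θ (by linarith)).trans hθ
    calc nm ((D.fl p.2 (i * t) p.1)⁻¹ * D.fl p.2 (i * t) (p.1 * kM θ)) ≤ nm (kM θ) * Real.exp (KG * (i * t)) := h1
      _ ≤ ρ * R ^ (1 / 40 : ℝ) := mul_le_mul h4 h3 (Real.exp_pos _).le hρ0.le
      _ ≤ η := hρR
  have hdiff : ∀ θ : ℝ, |θ| ≤ ρ → ∀ i ≤ n, nm ((w i).1⁻¹ * D.fl p.2 (i * t) (p.1 * kM θ)) ≤ 3 * η := by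
    intro θ hθ i hi
    have h1 := SG4_nm3 _ _ η (hfol i hi) (hfolθ θ hθ i hi) (by linarith)
    have h2 : ((D.fl p.2 (i * t) p.1)⁻¹ * (w i).1)⁻¹ * ((D.fl p.2 (i * t) p.1)⁻¹ * D.fl p.2 (i * t) (p.1 * kM θ)) =
        (w i).1⁻¹ * D.fl p.2 (i * t) (p.1 * kM θ) := by
      group
    rwa [h2] at h1
  -- the family
  obtain ⟨wu, hwu⟩ : ∃ wu : ℝ → ℕ → SL(2, ℝ) × ℝ, wu = fun θ (i : ℕ) => (D.fl p.2 ((i : ℝ) * t) (p.1 * kM θ), p.2) := ⟨_, rfl⟩
  obtain ⟨Z, hZ⟩ : ∃ Z : ℝ → ℝ → SL(2, ℝ), Z = fun θ s => (w n).1⁻¹ * D.fl p.2 s (D.fl p.2 (n * t) (p.1 * kM θ)) := ⟨_, rfl⟩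
  have hZz : ∀ θ s, Z θ s = zz D w (wu θ) s n := by
    intro θ s
    rw [hZ, hwu]
    rfl
  have hSW : ∀ θ s : ℝ, |θ| ≤ ρ → |s| ≤ 1 / K → (Z θ s).1 0 0 = (Z θ s).1 1 1 →
      ((Z θ s).1 0 1 + (Z θ s).1 1 0 = 0 → nm (Z θ s) ≤ ρ / 4 ∧ |s| ≤ ρ / 4 ∧ |θ| ≤ ρ / 4) ∧
      (ρ ≤ |θ| → θ * ((Z θ s).1 0 1 + (Z θ s).1 1 0) < 0) := by
    intro θ s hθ hs hc
    have hPO : PO D (4 * k) t ε n (wu θ) := by
      rw [hwu]
      exact SG4_PO hF n _ hpE hε.le
    have h := HS D hF t ε θ s n w (wu θ) (Z θ s) ht1 ht2 hε hn1 (by linarith) hw hPO (by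
        intro i hi
        rw [hwu]
        have := hwE i hi
        have h3 : 0 ≤ (A.m + 1) * A.r R := by positivity
        show |p.2 - (w i).2| ≤ ε
        rw [abs_sub_comm]
        linarith) (by
        intro i hi
        rw [hwu]
        exact (hdiff θ hθ i hi).trans (h3η.trans hKinvS)) (by
        rw [hwu, hw0]
        show p.1⁻¹ * D.fl p.2 (((0 : ℕ) : ℝ) * t) (p.1 * kM θ) = kM θ
        rw [Nat.cast_zero, zero_mul, hF.zero, inv_mul_cancel_left])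
      (hθ.trans (hρK.trans (hK40.trans hKinvS))) (hs.trans hKinvS) (hZz θ s) hc
    refine ⟨fun h0 => ?_, fun h0 => h.2 (by linarith)⟩
    obtain ⟨a1, a2, a3⟩ := h.1 h0
    exact ⟨a1.trans hKSn, a2.trans hKSn, a3.trans hKSn⟩
  have hcZ : Continuous (Function.uncurry Z) := by
    rw [hZ]
    have h1 : Continuous (fun x : ℝ × ℝ => D.fl p.2 (n * t) (p.1 * kM x.1)) := by
      have h2 : Continuous (fun x : ℝ × ℝ => ((p.2, ((n : ℝ) * t, p.1 * kM x.1)) : ℝ × ℝ × SL(2, ℝ))) :=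
        continuous_const.prodMk (continuous_const.prodMk (continuous_const.mul (SG4_kM_cont.comp continuous_fst)))
      exact hF.cont.comp_continuous h2 fun u => hpE
    have h3 : Continuous (fun x : ℝ × ℝ => D.fl p.2 x.2 (D.fl p.2 (n * t) (p.1 * kM x.1))) := by
      have h2 : Continuous (fun x : ℝ × ℝ => ((p.2, (x.2, D.fl p.2 (n * t) (p.1 * kM x.1))) : ℝ × ℝ × SL(2, ℝ))) :=
        continuous_const.prodMk (continuous_snd.prodMk h1)
      exact hF.cont.comp_continuous h2 fun u => hpE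
    exact continuous_const.mul h3
  have hcij : ∀ i j : Fin 2, Continuous (fun x : ℝ × ℝ => (Z x.1 x.2).1 i j) := by
    intro i j
    exact (continuous_apply_apply i j).comp (continuous_subtype_val.comp hcZ)
  have hmono : ∀ θ : ℝ, |θ| ≤ ρ → ∀ s s' : ℝ, -(1 / K) ≤ s → s ≤ s' → s' ≤ 1 / K →
      (s' - s) / KU ≤ ((Z θ s').1 0 0 - (Z θ s').1 1 1) - ((Z θ s).1 0 0 - (Z θ s).1 1 1) := by
    intro θ hθ s s' h1 h2 h3
    have h4 := (HU D hF p.2 (w n).1 (D.fl p.2 (n * t) (p.1 * kM θ)) _ hpE rfl ((hdiff θ hθ n le_rfl).trans (h3η.trans hKinvU))).2 s s'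
      (by linarith) h2 (by linarith)
    rw [hZ]
    exact h4
  have hz0 : ∀ θ : ℝ, |θ| ≤ ρ → |(Z θ 0).1 0 0 - (Z θ 0).1 1 1| ≤ 6 * η := by
    intro θ hθ
    have h1 : nm (Z θ 0) ≤ 3 * η := by
      rw [hZ]
      show nm ((w n).1⁻¹ * D.fl p.2 0 (D.fl p.2 (n * t) (p.1 * kM θ))) ≤ 3 * η
      rw [hF.zero]
      exact hdiff θ hθ n le_rfl
    have d0 := VQE.NMB_le (Z θ 0) 0 0
    have d1 := VQE.NMB_le (Z θ 0) 1 1
    have e1 : (1 : Matrix (Fin 2) (Fin 2) ℝ) 0 0 = 1 := by simp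
    have e2 : (1 : Matrix (Fin 2) (Fin 2) ℝ) 1 1 = 1 := by simp
    rw [e1] at d0
    rw [e2] at d1
    rw [abs_le] at d0 d1 ⊢
    constructor <;> linarith [d0.1, d0.2, d1.1, d1.2]
  have hKpos : 0 < 1 / K := by positivity
  have h6 : 6 * η < 1 / K / KU := by
    have h1 : 1 / K / KU ≥ 1 / K / K := by
      apply div_le_div_of_nonneg_left hKpos.le (by linarith) hU
    have h2 : 1 / K / K = 1 / K ^ 2 := by rw [div_div, sq]
    have h3 : 1 / (10 * K ^ 2) = 1 / 10 * (1 / K ^ 2) := by field_simp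
    have h4 : 0 < 1 / K ^ 2 := by positivity
    linarith
  obtain ⟨θ, hθ, s, hs, hψ, hh⟩ := hCT4 ρ (1 / K) (fun θ s => (Z θ s).1 0 0 - (Z θ s).1 1 1) (fun θ s => (Z θ s).1 0 1 + (Z θ s).1 1 0)
    hρ0 hKpos ((hcij 0 0).sub (hcij 1 1)).continuousOn ((hcij 0 1).add (hcij 1 0)).continuousOn (by
      intro θ hθ s hs s' hs' hss
      have h1 := hmono θ (abs_le.2 hθ) s s' hs.1 hss.le hs'.2
      have h2 : 0 < (s' - s) / KU := div_pos (by linarith) (by linarith)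
      show (Z θ s).1 0 0 - (Z θ s).1 1 1 < (Z θ s').1 0 0 - (Z θ s').1 1 1
      linarith) (by
      intro θ hθ
      have hθ' := abs_le.2 hθ
      have h1 := hmono θ hθ' (-(1 / K)) 0 le_rfl (by linarith) hKpos.le
      have h2 := hmono θ hθ' 0 (1 / K) (by linarith) hKpos.le le_rfl
      rw [zero_sub, neg_neg] at h1
      rw [sub_zero] at h2
      have h3 := abs_le.1 (hz0 θ hθ')
      constructor
      · show (Z θ (-(1 / K))).1 0 0 - (Z θ (-(1 / K))).1 1 1 < 0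
        linarith [h3.2]
      · show 0 < (Z θ (1 / K)).1 0 0 - (Z θ (1 / K)).1 1 1
        linarith [h3.1]) (by
      intro s hs h0
      have h1 := (hSW (-ρ) s (by rw [abs_neg, abs_of_pos hρ0]) (abs_le.2 hs) (by
        have h0' : (Z (-ρ) s).1 0 0 - (Z (-ρ) s).1 1 1 = 0 := h0
        linarith)).2 (by rw [abs_neg, abs_of_pos hρ0])
      show 0 < (Z (-ρ) s).1 0 1 + (Z (-ρ) s).1 1 0
      by_contra h2
      rw [not_lt] at h2
      have := mul_nonneg_of_nonpos_of_nonpos (by linarith : -ρ ≤ 0) h2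
      linarith) (by
      intro s hs h0
      have h1 := (hSW ρ s (by rw [abs_of_pos hρ0]) (abs_le.2 hs) (by
        have h0' : (Z ρ s).1 0 0 - (Z ρ s).1 1 1 = 0 := h0
        linarith)).2 (by rw [abs_of_pos hρ0])
      show (Z ρ s).1 0 1 + (Z ρ s).1 1 0 < 0
      by_contra h2
      rw [not_lt] at h2
      have := mul_nonneg hρ0.le h2
      linarith)
  have hψ' : (Z θ s).1 0 0 = (Z θ s).1 1 1 := by
    have h0' : (Z θ s).1 0 0 - (Z θ s).1 1 1 = 0 := hψ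
    linarith
  have hh' : (Z θ s).1 0 1 + (Z θ s).1 1 0 = 0 := hh
  obtain ⟨b1, b2, b3⟩ := (hSW θ s (abs_le.2 hθ) (abs_le.2 hs) hψ').1 hh'
  obtain ⟨ζ, hζ, hζ'⟩ := SG4_rot (Z θ s) (ρ / 4) hψ' hh' b1 (by linarith)
  have hρr2 : ρ ≤ r2 A R := by
    rw [hρd, r2]
    exact Real.rpow_le_rpow_of_exponent_le (by linarith) (by linarith)
  refine ⟨?_, θ, s, -ζ, by linarith, by linarith, by rw [abs_neg]; linarith, ?_⟩
  · have h1 := hwE n le_rfl
    rw [hwn1.2] at h1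
    have h3 : ε ≤ K * ((n + 1) * ε) := by
      have e1 : 1 * ε ≤ (n + 1) * ε := mul_le_mul_of_nonneg_right (by linarith) hε.le
      have e2 : 1 * ((n + 1) * ε) ≤ K * ((n + 1) * ε) := mul_le_mul_of_nonneg_right hK1 hne
      linarith
    have h4 : 0 ≤ (A.m + 1) * A.r R := by positivity
    linarith
  · have h1 : (w n).1 = D.fl p.2 (A.tu R + s) (p.1 * kM θ) * kM (-ζ) := by
      rw [← SG4_kM_inv, ← hζ, hZ, hnt, add_comm, hF.add _ _ _ _ hpE]
      group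
    rcases hwn1.1 with h | h
    · left
      rw [← h1, h]
    · right
      rw [← h1, h, neg_neg]

end

end Pool.Agent.VN
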